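import Mathlib
import Pool.Agent.R190.Fee.Levels

set_option autoImplicit false

open Pool.Agent.R190.Fee Set

namespace Pool.Agent.Results.MP_fee8af_an.AllFiniteLevels

/-- For every `n ≥ 2` there is a leaf (through a tree `T`) whose closure is at no finite level,
while its substructure contains, for every `k ≥ 0`, a leaf at level `k`. -/
theorem result (n : ℕ) (hn : 2 ≤ n) :
    ∃ T : RTree n, (∀ k : ℕ, ¬ AtLevel k (closure (leaf T))) ∧
      ∀ k : ℕ, ∃ S ∈ substructure (closure (leaf T)), AtLevel k (closure (leaf S)) := by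
  let C : Two n := ⟨⟨0, by omega⟩, ⟨1, by omega⟩, by simp⟩
  refine ⟨C.line wtop, C.top_infinite, fun k => ⟨C.line (wd k), ?_, C.atLevel_wd k⟩⟩
  exact C.mem_sub.2 ⟨_, rfl, below_top k, not_top_below k⟩

end Pool.Agent.Results.MP_fee8af_an.AllFiniteLevels
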